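import Pool.Agent.Helper49.QL.Defs
import Pool.Agent.Helper8.QU.Class

/-!
# QL2: the norm factors in the new ring
-/

set_option autoImplicit false

namespace Pool.Agent.Helper8.QL

open Matrix MvPolynomial Pool.Agent.Helper49.QU Pool.Agent.Helper18.CL Pool.Agent.Helper8.QU
open Pool.Agent.Helper69.CB (TriDeg)

theorem inc_dvd_inc_iff {k : Type} [Field k] {n r : ℕ} {N : Fin r → ℕ}
    {P Q : MvPolynomial (Fin n) k} : inc n N k P ∣ inc n N k Q ↔ P ∣ Q :=
  rename_dvd_rename_iff tix_injective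

theorem inc_injective {k : Type} [Field k] {n r : ℕ} {N : Fin r → ℕ} :
    Function.Injective (inc n N k) := rename_injective _ tix_injective

theorem triDeg_inc {k : Type} [Field k] {n r : ℕ} {N : Fin r → ℕ} {dm : ℕ}
    {P : MvPolynomial (Fin n) k} (h : TriDeg dm P) : TriDeg dm (inc n N k P) := by
  intro j hj
  have hdeg : ∀ j0 : Fin n, (inc n N k P).degreeOf (tix N j0) = P.degreeOf j0 := fun j0 =>
    degreeOf_rename_of_injective tix_injective j0
  rcases mem_range_or j with ⟨s, rfl⟩ | ⟨j0, rfl⟩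
  · have h1 : (inc n N k P).degreeOf (vix N s) = 0 := by
      refine degreeOf_rename_of_notMem ?_
      rintro ⟨j0, hj0⟩
      exact vix_ne_tix s j0 hj0.symm
    rw [h1]
    exact Nat.zero_le _
  · rw [hdeg j0]
    refine h j0 fun l hl => ?_
    rw [← hdeg l]
    exact hj _ (tix_lt_tix.2 hl)

theorem lcu_inc {k : Type} [Field k] {n r : ℕ} {N : Fin r → ℕ} {l : ℕ}
    {P a b : MvPolynomial (Fin n) k} (h : Pool.Agent.Helper65.CL.LCU l P a b) :
    Pool.Agent.Helper65.CL.LCU l (inc n N k P) (inc n N k a) (inc n N k b) := by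
  obtain ⟨e, f, a1, b1, g, h, ha, hb, ha1, hb1, hg, ht⟩ := h
  refine ⟨e, f, inc n N k a1, inc n N k b1, inc n N k g, inc n N k h, ?_, ?_, ?_, ?_, ?_, ?_⟩
  · rw [ha, map_mul, map_pow]
  · rw [hb, map_mul, map_pow]
  · rwa [inc_dvd_inc_iff]
  · rwa [inc_dvd_inc_iff]
  · rwa [inc_dvd_inc_iff]
  · have h1 := map_dvd (inc n N k) ht
    simpa only [map_sub, map_mul, map_pow, map_neg, map_one] using h1

/-- an irreducible factor of an old polynomial is old -/
theorem exists_old_of_dvd {k : Type} [Field k] {n r : ℕ} {N : Fin r → ℕ}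
    {F : MvPolynomial (Fin n) k} (hF : F ≠ 0) (P : MvPolynomial (Fin (vn N + n)) k)
    (hP : Irreducible P) (hd : P ∣ inc n N k F) :
    ∃ P0 : MvPolynomial (Fin n) k, Irreducible P0 ∧ P = inc n N k P0 ∧ P0 ∣ F := by
  have hF' : inc n N k F ≠ 0 := by
    rw [Ne, map_eq_zero_iff _ inc_injective]
    exact hF
  obtain ⟨P0, hP0, hPP, -⟩ := exists_old P hP (fun s => by
    have h1 := degreeOf_le_of_dvd (vix N s) hF' hd
    have h2 : (inc n N k F).degreeOf (vix N s) = 0 := by
      refine degreeOf_rename_of_notMem ?_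
      rintro ⟨j0, hj0⟩
      exact vix_ne_tix s j0 hj0.symm
    omega)
  refine ⟨P0, hP0, hPP, ?_⟩
  rw [hPP] at hd
  exact inc_dvd_inc_iff.1 hd

/-- **QL2.** the norm factors in the new ring: an irreducible factor of an old polynomial is old -/
theorem factor_norm {k : Type} [Field k] {n r : ℕ} {N : Fin r → ℕ} (dm l : ℕ) (W : Prop)
    (a b : MvPolynomial (Fin n) k) (ha : a ≠ 0) (hb : b ≠ 0)
    (h : ∀ P : MvPolynomial (Fin n) k, Irreducible P → P ∣ a * b →
      TriDeg dm P ∨ (W ∧ Pool.Agent.Helper65.CL.LCU l P a b))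
    (P : MvPolynomial (Fin (vn N + n)) k) (hP : Irreducible P)
    (hd : P ∣ inc n N k a * inc n N k b) :
    TriDeg dm P ∨ (W ∧ Pool.Agent.Helper65.CL.LCU l P (inc n N k a) (inc n N k b)) := by
  rw [← map_mul] at hd
  obtain ⟨P0, hP0, rfl, hd0⟩ := exists_old_of_dvd (mul_ne_zero ha hb) P hP hd
  rcases h P0 hP0 hd0 with h1 | ⟨hW, h1⟩
  · exact Or.inl (triDeg_inc h1)
  · exact Or.inr ⟨hW, lcu_inc h1⟩

end Pool.Agent.Helper8.QL
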